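import Mathlib

/-!
# Containers for approximate cliques
-/

set_option autoImplicit false

namespace Pool.Agent.Helper60.RM

open Finset
open scoped Classical

/-- The elements of `A` different from `v` and not adjacent to `v`. -/
noncomputable def non {V : Type} (adj : V → V → Prop) (A : Finset V) (v : V) : Finset V :=
  A.filter (fun w => w ≠ v ∧ ¬ adj v w)

theorem mem_non {V : Type} {adj : V → V → Prop} {A : Finset V} {v w : V} :
    w ∈ non adj A v ↔ w ∈ A ∧ w ≠ v ∧ ¬ adj v w := by
  unfold non
  rw [mem_filter]

/-- Containers: the family does not depend on `F`, and for every set `F` with non-degrees at most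
`l` some member of the family contains all of `F ∩ A` except at most `l * (|A| / s)` elements. -/
theorem containers {V : Type} (adj : V → V → Prop) (s : ℕ) (hs : 0 < s) (A : Finset V) :
    ∃ T : Finset (Finset V), T.card ≤ (A.card + 1) ^ (A.card / s) ∧
      (∀ C ∈ T, C ⊆ A ∧ ∀ v ∈ C, (non adj C v).card < s) ∧
      ∀ (F : Finset V) (l : ℕ), (∀ v ∈ F, (non adj F v).card ≤ l) →
        ∃ C ∈ T, ((F ∩ A) \ C).card ≤ l * (A.card / s) := by
  induction hn : A.card using Nat.strong_induction_on generalizing A with
  | _ n ih =>
    by_cases hv : ∃ v ∈ A, s ≤ (non adj A v).card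
    · obtain ⟨v, hvA, hvs⟩ := hv
      have hsubn : non adj A v ⊆ A := filter_subset _ _
      have hvn : v ∉ non adj A v := fun h => (mem_non.1 h).2.1 rfl
      have hc1 : (A.erase v).card = n - 1 := by rw [card_erase_of_mem hvA, hn]
      have hpos : 0 < n := by rw [← hn]; exact card_pos.2 ⟨v, hvA⟩
      have hle : (non adj A v).card ≤ n - 1 := by
        rw [← hc1]
        refine card_le_card fun w hw => mem_erase.2 ⟨fun h => hvn (h ▸ hw), hsubn hw⟩
      have hc2 : (A \ non adj A v).card = n - (non adj A v).card := by
        rw [card_sdiff_of_subset hsubn, hn]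
      obtain ⟨T1, h1a, h1b, h1c⟩ := ih (n - 1) (by omega) (A.erase v) hc1
      obtain ⟨T2, h2a, h2b, h2c⟩ := ih (n - (non adj A v).card) (by omega) (A \ non adj A v) hc2
      refine ⟨T1 ∪ T2, ?_, ?_, ?_⟩
      · refine (card_union_le _ _).trans ((add_le_add h1a h2a).trans ?_)
        obtain ⟨k, hk⟩ : ∃ k, n / s = k + 1 := by
          refine ⟨n / s - 1, ?_⟩
          have : 0 < n / s := Nat.div_pos (by omega) hs
          omega
        have e1 : (n - 1 + 1) ^ ((n - 1) / s) ≤ n ^ (k + 1) := by
          rw [Nat.sub_add_cancel hpos]
          refine Nat.pow_le_pow_right hpos ?_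
          rw [← hk]
          exact Nat.div_le_div_right (Nat.sub_le _ _)
        have e2 : (n - (non adj A v).card + 1) ^ ((n - (non adj A v).card) / s) ≤ n ^ k := by
          have h3 : (n - (non adj A v).card) / s ≤ k := by
            have h5 : (n - (non adj A v).card) / s + 1 ≤ n / s := by
              rw [← Nat.add_div_right _ hs]
              exact Nat.div_le_div_right (by omega)
            omega
          refine (Nat.pow_le_pow_right (by omega) h3).trans (Nat.pow_le_pow_left (by omega) k)
        rw [hk]
        have e3 : n ^ (k + 1) + n ^ k ≤ (n + 1) ^ (k + 1) := by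
          have : n ^ (k + 1) + n ^ k = n ^ k * (n + 1) := by ring
          rw [this, pow_succ]
          exact Nat.mul_le_mul_right _ (Nat.pow_le_pow_left (Nat.le_succ n) k)
        omega
      · intro C hC
        rcases mem_union.1 hC with h | h
        · exact ⟨(h1b C h).1.trans (erase_subset _ _), (h1b C h).2⟩
        · exact ⟨(h2b C h).1.trans sdiff_subset, (h2b C h).2⟩
      · intro F l hF
        by_cases hvF : v ∈ F
        · obtain ⟨C, hC, hCc⟩ := h2c F l hF
          refine ⟨C, mem_union_right _ hC, ?_⟩
          have h3 : (F ∩ A) \ C ⊆ ((F ∩ (A \ non adj A v)) \ C) ∪ non adj F v := by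
            intro w hw
            rw [mem_sdiff, mem_inter] at hw
            by_cases hwn : w ∈ non adj A v
            · exact mem_union_right _ (mem_non.2 ⟨hw.1.1, (mem_non.1 hwn).2⟩)
            · exact mem_union_left _ (mem_sdiff.2 ⟨mem_inter.2 ⟨hw.1.1,
                mem_sdiff.2 ⟨hw.1.2, hwn⟩⟩, hw.2⟩)
          refine (card_le_card h3).trans ((card_union_le _ _).trans
            ((add_le_add hCc (hF v hvF)).trans ?_))
          have h4 : (n - (non adj A v).card) / s + 1 ≤ n / s := by
            have h5 : (n - (non adj A v).card) / s + 1 = (n - (non adj A v).card + s) / s := by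
              rw [Nat.add_div_right _ hs]
            rw [h5]
            exact Nat.div_le_div_right (by omega)
          calc l * ((n - (non adj A v).card) / s) + l
              = l * ((n - (non adj A v).card) / s + 1) := by ring
            _ ≤ l * (n / s) := Nat.mul_le_mul_left _ h4
        · obtain ⟨C, hC, hCc⟩ := h1c F l hF
          refine ⟨C, mem_union_left _ hC, ?_⟩
          have h3 : (F ∩ A) \ C ⊆ (F ∩ A.erase v) \ C := by
            intro w hw
            rw [mem_sdiff, mem_inter] at hw
            exact mem_sdiff.2 ⟨mem_inter.2 ⟨hw.1.1, mem_erase.2 ⟨fun h => hvF (h ▸ hw.1.1),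
              hw.1.2⟩⟩, hw.2⟩
          refine (card_le_card h3).trans (hCc.trans (Nat.mul_le_mul_left _ ?_))
          exact Nat.div_le_div_right (Nat.sub_le _ _)
    · push Not at hv
      refine ⟨{A}, ?_, ?_, ?_⟩
      · rw [card_singleton]
        exact Nat.one_le_pow _ _ (Nat.succ_pos _)
      · intro C hC
        rw [mem_singleton] at hC
        subst hC
        exact ⟨Subset.refl _, hv⟩
      · intro F l _
        refine ⟨A, mem_singleton_self _, ?_⟩
        rw [sdiff_eq_empty_iff_subset.2 inter_subset_right, card_empty]
        exact Nat.zero_le _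

end Pool.Agent.Helper60.RM
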