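import Mathlib

/-!
# Definitions for the approximate Reed machine: hard-core weights on a finite conflict graph
-/

set_option autoImplicit false

namespace Pool.Agent.Helper60.RM

open Finset
open scoped Classical

section

variable {V : Type} [Fintype V] (adj : V → V → Prop)

/-- Closed ball of radius one. -/
noncomputable def B (e : V) : Finset V := univ.filter (fun f => f = e ∨ adj e f)

/-- Closed ball of radius two. -/
noncomputable def B2 (e : V) : Finset V := (B adj e).biUnion (B adj)

/-- Closed ball of radius three. -/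
noncomputable def B3 (e : V) : Finset V := (B2 adj e).biUnion (B adj)

omit [Fintype V] in
/-- Independence of a set of vertices. -/
def Ind (I : Finset V) : Prop := ∀ x ∈ I, ∀ y ∈ I, x ≠ y → ¬ adj x y

omit [Fintype V] in
/-- Hard-core weight of `I` as a subset of `U`. -/
noncomputable def hc (lam : V → ℝ) (U I : Finset V) : ℝ :=
  if I ⊆ U ∧ Ind adj I then ∏ f ∈ I, lam f else 0

/-- Partition function. -/
noncomputable def Z (lam : V → ℝ) (U : Finset V) : ℝ := ∑ I : Finset V, hc adj lam U I

omit [Fintype V] in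
/-- `f` has no neighbour in `O`. -/
def NoNb (O : Finset V) (f : V) : Prop := ∀ g ∈ O, ¬ adj f g

omit [Fintype V] in
/-- The vertices of `U ∩ R` without neighbour in `O`. -/
noncomputable def free (U R O : Finset V) : Finset V := (U ∩ R).filter (NoNb adj O)

/-- Probability of `e` given the configuration `O` outside the ball of `e`. -/
noncomputable def pr (lam : V → ℝ) (U : Finset V) (e : V) (O : Finset V) : ℝ :=
  lam e / Z adj lam (free adj U (B adj e) (O \ B adj e))

/-- Weight of a sample. -/
noncomputable def sw (lam : V → ℝ) (U : Finset V) {n : ℕ} (M : Fin n → Finset V) : ℝ :=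
  ∏ i, hc adj lam U (M i)

omit [Fintype V] in
/-- `X` is determined by the configuration outside `R`. -/
def OffDet {n : ℕ} (R : Finset V) (X : (Fin n → Finset V) → Prop) : Prop :=
  ∀ M M' : Fin n → Finset V, (∀ i, M i \ R = M' i \ R) → (X M ↔ X M')

end

section

variable {V : Type} [Fintype V] {adj : V → V → Prop}

theorem mem_B {e f : V} : f ∈ B adj e ↔ f = e ∨ adj e f := by
  unfold B
  rw [mem_filter]
  exact and_iff_right (mem_univ _)

theorem self_mem_B (e : V) : e ∈ B adj e := mem_B.2 (Or.inl rfl)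

theorem mem_B_comm (hs : ∀ x y, adj x y → adj y x) {e f : V} : f ∈ B adj e ↔ e ∈ B adj f := by
  rw [mem_B, mem_B]
  constructor <;> rintro (h | h)
  · exact Or.inl h.symm
  · exact Or.inr (hs _ _ h)
  · exact Or.inl h.symm
  · exact Or.inr (hs _ _ h)

theorem B_subset_B2 {e f : V} (h : f ∈ B adj e) : B adj f ⊆ B2 adj e :=
  subset_biUnion_of_mem (B adj) h

theorem B_sub_B2 (e : V) : B adj e ⊆ B2 adj e := B_subset_B2 (self_mem_B e)

theorem B_subset_B3 {e f : V} (h : f ∈ B2 adj e) : B adj f ⊆ B3 adj e :=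
  subset_biUnion_of_mem (B adj) h

theorem B2_sub_B3 (e : V) : B2 adj e ⊆ B3 adj e := fun f hf =>
  B_subset_B3 hf (self_mem_B f)

omit [Fintype V] in
theorem ind_mono {I J : Finset V} (h : I ⊆ J) (hJ : Ind adj J) : Ind adj I :=
  fun x hx y hy hne => hJ x (h hx) y (h hy) hne

omit [Fintype V] in
theorem ind_empty : Ind adj (∅ : Finset V) := fun x hx => absurd hx (notMem_empty x)

omit [Fintype V] in
theorem hc_nonneg {lam : V → ℝ} (h : ∀ f, 0 ≤ lam f) (U I : Finset V) : 0 ≤ hc adj lam U I := by
  unfold hc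
  split_ifs
  · exact prod_nonneg fun f _ => h f
  · exact le_rfl

omit [Fintype V] in
theorem hc_empty (lam : V → ℝ) (U : Finset V) : hc adj lam U ∅ = 1 := by
  unfold hc
  rw [if_pos ⟨empty_subset _, ind_empty⟩, prod_empty]

theorem one_le_Z {lam : V → ℝ} (h : ∀ f, 0 ≤ lam f) (U : Finset V) : 1 ≤ Z adj lam U := by
  unfold Z
  rw [← hc_empty (adj := adj) lam U]
  exact single_le_sum (f := fun I => hc adj lam U I) (fun I _ => hc_nonneg h U I) (mem_univ _)

theorem Z_pos {lam : V → ℝ} (h : ∀ f, 0 ≤ lam f) (U : Finset V) : 0 < Z adj lam U :=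
  lt_of_lt_of_le one_pos (one_le_Z h U)

omit [Fintype V] in
theorem mem_free {U R O : Finset V} {f : V} :
    f ∈ free adj U R O ↔ f ∈ U ∧ f ∈ R ∧ ∀ g ∈ O, ¬ adj f g := by
  unfold free
  rw [mem_filter, mem_inter, and_assoc]
  exact Iff.rfl

end

end Pool.Agent.Helper60.RM
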