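import Mathlib

/-!
# The lopsided local lemma for a finite weighted space
-/

set_option autoImplicit false

namespace Pool.Agent.Helper60.RM

open Finset
open scoped Classical

section

variable {Ω ι : Type} [Fintype Ω]

/-- Weight of a property. -/
noncomputable def wt (w : Ω → ℝ) (P : Ω → Prop) : ℝ := ∑ ω, if P ω then w ω else 0

variable {w : Ω → ℝ}

theorem wt_nonneg (hw : ∀ ω, 0 ≤ w ω) (P : Ω → Prop) : 0 ≤ wt w P :=
  sum_nonneg fun ω _ => by
    split_ifs
    · exact hw ω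
    · exact le_rfl

theorem wt_mono (hw : ∀ ω, 0 ≤ w ω) {P Q : Ω → Prop} (h : ∀ ω, P ω → Q ω) :
    wt w P ≤ wt w Q := by
  refine sum_le_sum fun ω _ => ?_
  by_cases hP : P ω
  · rw [if_pos hP, if_pos (h ω hP)]
  · rw [if_neg hP]
    split_ifs
    · exact hw ω
    · exact le_rfl

theorem wt_congr {P Q : Ω → Prop} (h : ∀ ω, P ω ↔ Q ω) : wt w P = wt w Q := by
  unfold wt
  refine sum_congr rfl fun ω _ => ?_
  simp only [h ω]

/-- `P` is covered by `Q` and the `A b`. -/
theorem wt_le_add_sum (hw : ∀ ω, 0 ≤ w ω) {P Q : Ω → Prop} {A : ι → Ω → Prop} (T : Finset ι)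
    (h : ∀ ω, P ω → Q ω ∨ ∃ b ∈ T, A b ω ∧ P ω) :
    wt w P ≤ wt w Q + ∑ b ∈ T, wt w (fun ω => A b ω ∧ P ω) := by
  unfold wt
  rw [sum_comm, ← sum_add_distrib]
  refine sum_le_sum fun ω _ => ?_
  have h0 : ∀ (R : Prop) [Decidable R], (0 : ℝ) ≤ if R then w ω else 0 := fun R _ => by
    split_ifs
    · exact hw ω
    · exact le_rfl
  show (if P ω then w ω else 0) ≤ (if Q ω then w ω else 0) +
    ∑ b ∈ T, @ite ℝ (A b ω ∧ P ω) (Classical.propDecidable _) (w ω) 0
  by_cases hP : P ω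
  · rw [if_pos hP]
    rcases h ω hP with h | ⟨b, hb, h1, h2⟩
    · rw [if_pos h]
      have := sum_nonneg (s := T) fun b _ =>
        @h0 (A b ω ∧ P ω) (Classical.propDecidable _)
      linarith
    · have h3 : @ite ℝ (A b ω ∧ P ω) (Classical.propDecidable _) (w ω) 0 ≤
          ∑ b ∈ T, @ite ℝ (A b ω ∧ P ω) (Classical.propDecidable _) (w ω) 0 :=
        single_le_sum (f := fun b => @ite ℝ (A b ω ∧ P ω) (Classical.propDecidable _) (w ω) 0)
          (fun b _ => @h0 _ (Classical.propDecidable _)) hb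
      rw [if_pos ⟨h1, h2⟩] at h3
      have := h0 (Q ω)
      linarith
  · rw [if_neg hP]
    exact add_nonneg (h0 _) (sum_nonneg fun b _ => @h0 _ (Classical.propDecidable _))

/-- The lopsided local lemma. -/
theorem lll [Fintype ι] (hw : ∀ ω, 0 ≤ w ω) (A : ι → Ω → Prop) (nbr : ι → Finset ι) (d : ℕ)
    (p : ℝ) (hp0 : 0 ≤ p) (hd : ∀ a, (nbr a).card ≤ d) (hpd : 4 * p * d ≤ 1) (hp : 2 * p < 1)
    (h : ∀ a, ∀ T : Finset ι, Disjoint T (nbr a) →
      wt w (fun ω => A a ω ∧ ∀ b ∈ T, ¬ A b ω) ≤ p * wt w (fun ω => ∀ b ∈ T, ¬ A b ω))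
    (hpos : 0 < ∑ ω, w ω) : ∃ ω, 0 < w ω ∧ ∀ a, ¬ A a ω := by
  have key : ∀ n : ℕ, ∀ T : Finset ι, T.card = n → ∀ a,
      wt w (fun ω => A a ω ∧ ∀ b ∈ T, ¬ A b ω) ≤ 2 * p * wt w (fun ω => ∀ b ∈ T, ¬ A b ω) := by
    intro n
    induction n using Nat.strong_induction_on with
    | _ n ih =>
      intro T hT a
      set T1 := T.filter (fun b => b ∈ nbr a) with hT1
      set T2 := T.filter (fun b => b ∉ nbr a) with hT2
      have hdis : Disjoint T2 (nbr a) := by
        rw [disjoint_left]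
        intro b hb
        exact (mem_filter.1 hb).2
      have h1 := h a T2 hdis
      have h2 : wt w (fun ω => A a ω ∧ ∀ b ∈ T, ¬ A b ω) ≤
          wt w (fun ω => A a ω ∧ ∀ b ∈ T2, ¬ A b ω) :=
        wt_mono hw fun ω hω => ⟨hω.1, fun b hb => hω.2 b (mem_filter.1 hb).1⟩
      have hnn := wt_nonneg hw (fun ω => ∀ b ∈ T, ¬ A b ω)
      have hnn2 := wt_nonneg hw (fun ω => ∀ b ∈ T2, ¬ A b ω)
      have h3 : wt w (fun ω => ∀ b ∈ T2, ¬ A b ω) ≤
          wt w (fun ω => ∀ b ∈ T, ¬ A b ω) +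
            ∑ b ∈ T1, wt w (fun ω => A b ω ∧ ∀ b ∈ T2, ¬ A b ω) := by
        refine wt_le_add_sum hw T1 fun ω hω => ?_
        by_cases hc : ∃ b ∈ T1, A b ω
        · obtain ⟨b, hb, hb2⟩ := hc
          exact Or.inr ⟨b, hb, hb2, hω⟩
        · push Not at hc
          left
          intro b hb
          by_cases hbn : b ∈ nbr a
          · exact hc b (mem_filter.2 ⟨hb, hbn⟩)
          · exact hω b (mem_filter.2 ⟨hb, hbn⟩)
      have h4 : ∑ b ∈ T1, wt w (fun ω => A b ω ∧ ∀ b ∈ T2, ¬ A b ω) ≤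
          d * (2 * p * wt w (fun ω => ∀ b ∈ T2, ¬ A b ω)) := by
        by_cases hemp : T1 = ∅
        · rw [hemp, sum_empty]
          positivity
        · have hlt : T2.card < n := by
            rw [← hT]
            refine card_lt_card ?_
            rw [hT2, filter_ssubset]
            obtain ⟨b, hb⟩ := nonempty_iff_ne_empty.2 hemp
            exact ⟨b, (mem_filter.1 hb).1, fun hc => hc (mem_filter.1 hb).2⟩
          refine (sum_le_sum fun b _ => ih _ hlt T2 rfl b).trans ?_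
          rw [sum_const, nsmul_eq_mul]
          refine mul_le_mul_of_nonneg_right ?_ (by positivity)
          have h5 : T1.card ≤ (nbr a).card :=
            card_le_card fun b hb => (mem_filter.1 hb).2
          exact_mod_cast h5.trans (hd a)
      have h5 : wt w (fun ω => ∀ b ∈ T2, ¬ A b ω) ≤ 2 * wt w (fun ω => ∀ b ∈ T, ¬ A b ω) := by
        nlinarith
      nlinarith
  have key2 : ∀ T : Finset ι, 0 < wt w (fun ω => ∀ b ∈ T, ¬ A b ω) := by
    intro T
    induction T using Finset.induction_on with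
    | empty =>
      unfold wt
      simpa using hpos
    | insert a T ha ih =>
      have h1 := key _ T rfl a
      have h2 : wt w (fun ω => ∀ b ∈ T, ¬ A b ω) ≤
          wt w (fun ω => ∀ b ∈ insert a T, ¬ A b ω) +
            ∑ b ∈ ({a} : Finset ι), wt w (fun ω => A b ω ∧ ∀ b ∈ T, ¬ A b ω) := by
        refine wt_le_add_sum hw {a} fun ω hω => ?_
        by_cases hc : A a ω
        · exact Or.inr ⟨a, mem_singleton_self _, hc, hω⟩
        · left
          intro b hb
          rcases mem_insert.1 hb with rfl | hb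
          · exact hc
          · exact hω b hb
      rw [sum_singleton] at h2
      nlinarith
  have h1 := key2 univ
  unfold wt at h1
  obtain ⟨ω, _, hω⟩ := exists_lt_of_sum_lt (s := univ) (f := fun _ : Ω => (0 : ℝ))
    (g := fun ω => if ∀ b ∈ (univ : Finset ι), ¬ A b ω then w ω else 0) (by simpa using h1)
  by_cases hc : ∀ b ∈ (univ : Finset ι), ¬ A b ω
  · rw [if_pos hc] at hω
    exact ⟨ω, hω, fun a => hc a (mem_univ a)⟩
  · rw [if_neg hc] at hω
    exact absurd hω (lt_irrefl _)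

end

end Pool.Agent.Helper60.RM
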